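import Mathlib

set_option autoImplicit false

namespace Pool.Agent.Helper78.NW

open Set Cardinal

universe u

theorem two_pow_lt {θ : Cardinal.{u}} (hθ : θ.IsRegular) (h : ∀ ν < θ, ν ^ ℵ₀ < θ) :
    (2 : Cardinal.{u}) ^ ℵ₀ < θ :=
  h 2 ((natCast_lt_aleph0 (n := 2)).trans_le hθ.aleph0_le)

theorem exists_closed {ι : Type u} {θ : Cardinal.{u}} (hθ : θ.IsRegular)
    (h : ∀ ν < θ, ν ^ ℵ₀ < θ) (Φ : Set ι → Set ι)
    (hΦ : ∀ C : Set ι, C.Countable → #(Φ C) < θ) :
    ∃ B : Set ι, #B < θ ∧ ∀ C ⊆ B, C.Countable → Φ C ⊆ B := by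
  classical
  have hθ2 := two_pow_lt hθ h
  have hℵ1 : (ℵ₁ : Cardinal.{u}) < θ := (aleph_one_le_continuum).trans_lt hθ2
  have h0θ : (ℵ₀ : Cardinal.{u}) < θ := aleph0_lt_aleph_one.trans hℵ1
  let Ψ : Set ι → Set ι := fun X => Φ ∅ ∪ ⋃ f : ℕ → X, Φ (range fun n => (f n : ι))
  have hΨ : ∀ X : Set ι, #X < θ → #(Ψ X) < θ := by
    intro X hX
    refine (mk_union_le _ _).trans_lt (add_lt_of_lt hθ.aleph0_le (hΦ _ countable_empty) ?_)
    rw [card_iUnion_lt_iff_forall_of_isRegular hθ]
    · intro f; exact hΦ _ (countable_range _)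
    · have : #(ℕ → X) = #X ^ ℵ₀ := by simp
      rw [this]; exact h _ hX
  let W := (ℵ₁ : Cardinal.{u}).ord.ToType
  have hWc : #W = ℵ₁ := mk_ord_toType _
  have hIio : ∀ w : W, #(Iio w) < ℵ₁ := by
    intro w
    simpa [W] using mk_Iio_lt w
  have hIio' : ∀ w : W, #(Iio w) ≤ ℵ₀ := by
    intro w
    have h1 := Order.le_of_lt_succ ((hIio w).trans_eq succ_aleph0.symm)
    exact h1
  let F : (w : W) → ((v : W) → v < w → Set ι) → Set ι :=
    fun w B => ⋃ v : Iio w, (B v v.2 ∪ Ψ (B v v.2))
  let B : W → Set ι := (IsWellFounded.wf : WellFounded ((· < ·) : W → W → Prop)).fix F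
  have hB : ∀ w, B w = ⋃ v : Iio w, (B v ∪ Ψ (B v)) := fun w =>
    WellFounded.fix_eq _ F w
  have hBc : ∀ w, #(B w) < θ := by
    intro w
    induction w using (IsWellFounded.wf : WellFounded ((· < ·) : W → W → Prop)).induction with
    | _ w ih =>
      rw [hB, card_iUnion_lt_iff_forall_of_isRegular hθ ((hIio w).trans hℵ1)]
      intro v
      exact (mk_union_le _ _).trans_lt
        (add_lt_of_lt hθ.aleph0_le (ih v v.2) (hΨ _ (ih v v.2)))
  have hmono : ∀ v w, v < w → B v ∪ Ψ (B v) ⊆ B w := by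
    intro v w hvw
    rw [hB w]
    exact subset_iUnion (fun v : Iio w => B v ∪ Ψ (B v)) ⟨v, hvw⟩
  refine ⟨⋃ w, B w, ?_, ?_⟩
  · rw [card_iUnion_lt_iff_forall_of_isRegular hθ (hWc.symm ▸ hℵ1)]
    exact hBc
  · intro C hC hCc
    -- bound
    obtain ⟨w, hw⟩ : ∃ w : W, C ⊆ B w := by
      have h1 : ∀ c : C, ∃ w : W, (c : ι) ∈ B w := fun c => mem_iUnion.1 (hC c.2)
      choose g hg using h1
      have : Countable C := hCc.to_subtype
      have h2 : (⋃ c : C, Iic (g c)) ≠ Set.univ := by
        intro h3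
        have h4 : (⋃ c : C, Iic (g c)).Countable := by
          apply countable_iUnion
          intro c
          have h5 : Iic (g c) = insert (g c) (Iio (g c)) := by
            ext x; simp [le_iff_eq_or_lt]
          rw [h5]
          apply Countable.insert
          rw [← le_aleph0_iff_set_countable]
          exact hIio' (g c)
        rw [h3, ← le_aleph0_iff_set_countable, mk_univ, hWc] at h4
        exact absurd h4 (not_le.2 aleph0_lt_aleph_one)
      obtain ⟨w, hw⟩ := (ne_univ_iff_exists_notMem _).1 h2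
      refine ⟨w, fun c hc => ?_⟩
      simp only [mem_iUnion, mem_Iic, not_exists, not_le] at hw
      exact hmono _ _ (hw ⟨c, hc⟩) (Or.inl (hg ⟨c, hc⟩))
    obtain ⟨w', hw'⟩ : ∃ w' : W, w < w' := by
      by_contra hcon
      push Not at hcon
      have h4 : (Iic w).Countable := by
        have h5 : Iic w = insert w (Iio w) := by
          ext x; simp [le_iff_eq_or_lt]
        rw [h5]
        apply Countable.insert
        rw [← le_aleph0_iff_set_countable]
        exact hIio' w
      have h5 : Iic w = Set.univ := eq_univ_of_forall hcon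
      rw [h5, ← le_aleph0_iff_set_countable, mk_univ, hWc] at h4
      exact absurd h4 (not_le.2 aleph0_lt_aleph_one)
    have h6 : Φ C ⊆ Ψ (B w) := by
      rcases C.eq_empty_or_nonempty with rfl | hne
      · exact subset_union_left
      · obtain ⟨f, hf⟩ := hCc.exists_eq_range hne
        have h7 : ∀ n, f n ∈ B w := fun n => hw (hf ▸ mem_range_self n)
        refine (subset_iUnion (fun f : ℕ → B w => Φ (range fun n => (f n : ι)))
          (fun n => ⟨f n, h7 n⟩)).trans' ?_ |>.trans subset_union_right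
        simp only
        rw [← hf]
    exact (h6.trans (subset_union_right.trans (hmono w w' hw'))).trans (subset_iUnion B w')

end Pool.Agent.Helper78.NW
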