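import Mathlib

set_option autoImplicit false

namespace Pool.Agent.Helper78.NW

open Set Cardinal MeasureTheory

universe u

variable {Ω ι : Type u}

/-- The sigma-algebra generated by the sets `A i`, `i ∈ B`. -/
@[reducible] def sig (A : ι → Set Ω) (B : Set ι) : MeasurableSpace Ω :=
  MeasurableSpace.generateFrom (A '' B)

theorem sig_mono (A : ι → Set Ω) {B C : Set ι} (h : B ⊆ C) : sig A B ≤ sig A C :=
  MeasurableSpace.generateFrom_mono (image_mono h)

theorem sig_le [mΩ : MeasurableSpace Ω] {A : ι → Set Ω} (hA : ∀ i, MeasurableSet (A i))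
    (B : Set ι) : sig A B ≤ mΩ := by
  apply MeasurableSpace.generateFrom_le
  rintro _ ⟨i, _, rfl⟩
  exact hA i

theorem measurableSet_sig (A : ι → Set Ω) {B : Set ι} {i : ι} (hi : i ∈ B) :
    MeasurableSet[sig A B] (A i) :=
  MeasurableSpace.measurableSet_generateFrom ⟨i, hi, rfl⟩

/-- Countable supports for sets. -/
theorem exists_countable_support_set (A : ι → Set Ω) (B : Set ι) (t : Set Ω)
    (ht : MeasurableSet[sig A B] t) :
    ∃ C ⊆ B, C.Countable ∧ MeasurableSet[sig A C] t := by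
  refine MeasurableSpace.generateFrom_induction (A '' B)
    (fun t _ => ∃ C ⊆ B, C.Countable ∧ MeasurableSet[sig A C] t) ?_ ?_ ?_ ?_ t ht
  · rintro _ ⟨i, hi, rfl⟩ _
    exact ⟨{i}, singleton_subset_iff.2 hi, countable_singleton i, measurableSet_sig A rfl⟩
  · exact ⟨∅, empty_subset _, countable_empty, @MeasurableSet.empty _ (sig A ∅)⟩
  · rintro t _ ⟨C, hC, hCc, ht⟩
    exact ⟨C, hC, hCc, @MeasurableSet.compl _ _ (sig A C) ht⟩
  · intro s _ hs
    choose C hC hCc hs using hs
    refine ⟨⋃ n, C n, iUnion_subset hC, countable_iUnion hCc, ?_⟩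
    exact @MeasurableSet.iUnion _ _ (sig A (⋃ n, C n)) _ s
      (fun n => sig_mono A (subset_iUnion C n) _ (hs n))

/-- Countable supports for real functions. -/
theorem exists_countable_support_fun (A : ι → Set Ω) (B : Set ι) (f : Ω → ℝ)
    (hf : Measurable[sig A B] f) :
    ∃ C ⊆ B, C.Countable ∧ Measurable[sig A C] f := by
  have h1 : ∀ q : ℚ, ∃ C ⊆ B, C.Countable ∧ MeasurableSet[sig A C] (f ⁻¹' Iio (q : ℝ)) :=
    fun q => exists_countable_support_set A B _ (hf measurableSet_Iio)
  choose C hC hCc hm using h1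
  refine ⟨⋃ q, C q, iUnion_subset hC, countable_iUnion hCc, ?_⟩
  have h2 : Real.measurableSpace =
      MeasurableSpace.generateFrom (⋃ a : ℚ, {Iio (a : ℝ)}) := by
    rw [← Real.borel_eq_generateFrom_Iio_rat]; exact BorelSpace.measurable_eq
  rw [h2]
  refine @measurable_generateFrom _ _ (sig A (⋃ q, C q)) _ _ ?_
  intro t ht
  obtain ⟨q, hq⟩ := mem_iUnion.1 ht
  rw [mem_singleton_iff.1 hq]
  exact sig_mono A (subset_iUnion C q) _ (hm q)

/-- There are at most continuum many measurable real functions for a countably generated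
sigma-algebra of the above form. -/
theorem mk_measurable_le (A : ι → Set Ω) (C : Set ι) (hC : C.Countable) :
    #{f : Ω → ℝ | Measurable[sig A C] f} ≤ 𝔠 := by
  have h1 : #{t : Set Ω | MeasurableSet[sig A C] t} ≤ 𝔠 := by
    apply MeasurableSpace.cardinal_measurableSet_le_continuum
    refine (mk_image_le.trans ?_).trans aleph0_le_continuum
    exact le_aleph0_iff_set_countable.2 hC
  let F : {f : Ω → ℝ | Measurable[sig A C] f} → (ℚ → {t : Set Ω | MeasurableSet[sig A C] t}) :=
    fun f q => ⟨(f : Ω → ℝ) ⁻¹' Iio (q : ℝ), f.2 measurableSet_Iio⟩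
  have hF : Function.Injective F := by
    rintro ⟨f, hf⟩ ⟨g, hg⟩ hfg
    apply Subtype.ext
    funext x
    have h2 : ∀ q : ℚ, f x < q ↔ g x < q := by
      intro q
      have h3 := congrArg Subtype.val (congrFun hfg q)
      have h4 : f ⁻¹' Iio (q : ℝ) = g ⁻¹' Iio (q : ℝ) := h3
      exact Set.ext_iff.1 h4 x
    by_contra hne
    rcases lt_or_gt_of_ne hne with h | h
    · obtain ⟨q, hq1, hq2⟩ := exists_rat_btwn h
      exact absurd ((h2 q).1 hq1) (not_lt.2 hq2.le)
    · obtain ⟨q, hq1, hq2⟩ := exists_rat_btwn h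
      exact absurd ((h2 q).2 hq1) (not_lt.2 hq2.le)
  have h5 : #(ULift.{u} ℚ → {t : Set Ω | MeasurableSet[sig A C] t}) ≤ 𝔠 := by
    have h6 : #(ULift.{u} ℚ → {t : Set Ω | MeasurableSet[sig A C] t})
        = #{t : Set Ω | MeasurableSet[sig A C] t} ^ (ℵ₀ : Cardinal.{u}) := by
      simp
    rw [h6]
    calc _ ≤ 𝔠 ^ (ℵ₀ : Cardinal.{u}) := power_le_power_right h1
      _ = 𝔠 := continuum_power_aleph0
  refine (mk_le_of_injective (f := fun f => fun q : ULift.{u} ℚ => F f q.down) ?_).trans h5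
  intro f g hfg
  apply hF
  funext q
  exact congrFun hfg ⟨q⟩

end Pool.Agent.Helper78.NW
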