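import Pool.Agent.Helper50.NW.Prec
import Pool.Agent.Helper78.NW.Closed
import Pool.Agent.Helper78.NW.Support

set_option autoImplicit false

namespace Pool.Agent.Helper78.NW

open Set Cardinal MeasureTheory

universe u

theorem stronglyMeasurable_pow_mul_prod {Ω W : Type u} [MeasurableSpace Ω] (ψ : Ω → ℝ)
    (hψ : Measurable ψ) (m : ℕ) (s : Finset W) (D : W → Set Ω)
    (hD : ∀ w ∈ s, MeasurableSet (D w)) :
    StronglyMeasurable
      (fun x => ψ x ^ m * ∏ w ∈ s, (D w).indicator (fun _ => (1 : ℝ)) x) := by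
  apply Measurable.stronglyMeasurable
  refine (hψ.pow_const m).mul (Finset.measurable_fun_prod s ?_)
  intro w hw
  exact measurable_const.indicator (hD w hw)

/-- There are a countable set `C` and a function `ψ` measurable with respect to the
sigma-algebra of `C` such that arbitrarily far there is an event whose conditional
probability is `ψ`. -/
theorem exists_good {Ω ι : Type u} [mΩ : MeasurableSpace Ω] (μ : Measure Ω)
    [IsProbabilityMeasure μ] {θ : Cardinal.{u}} (hθ : θ.IsRegular)
    (h : ∀ ν < θ, ν ^ ℵ₀ < θ) (hι : #ι = θ) (A : ι → Set Ω) (hA : ∀ i, MeasurableSet (A i)) :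
    ∃ (C : Set ι) (ψ : Ω → ℝ), C.Countable ∧ Measurable[sig A C] ψ ∧
      ∀ B : Set ι, C ⊆ B → #B < θ → ∃ i ∉ B,
        μ[(A i).indicator (fun _ => (1 : ℝ)) | sig A B] =ᵐ[μ] ψ := by
  classical
  by_contra hcon
  push Not at hcon
  choose J hCJ hJθ hJ using hcon
  let Φ : Set ι → Set ι := fun C =>
    if hC : C.Countable then ⋃ ψ : {f : Ω → ℝ | Measurable[sig A C] f}, J C ψ hC ψ.2 else ∅
  have hΦ : ∀ C : Set ι, C.Countable → #(Φ C) < θ := by
    intro C hC
    have h1 : Φ C = ⋃ ψ : {f : Ω → ℝ | Measurable[sig A C] f}, J C ψ hC ψ.2 := dif_pos hC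
    rw [h1, card_iUnion_lt_iff_forall_of_isRegular hθ
      ((mk_measurable_le A C hC).trans_lt (two_pow_lt hθ h))]
    intro ψ
    exact hJθ C ψ hC ψ.2
  obtain ⟨B, hBθ, hB⟩ := exists_closed hθ h Φ hΦ
  obtain ⟨i, hi⟩ : ∃ i, i ∉ B := by
    by_contra hcon
    push Not at hcon
    rw [Set.eq_univ_of_forall hcon, mk_univ, hι] at hBθ
    exact lt_irrefl _ hBθ
  set f : Ω → ℝ := μ[(A i).indicator (fun _ => (1 : ℝ)) | sig A B] with hf
  have hfm : Measurable[sig A B] f := stronglyMeasurable_condExp.measurable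
  obtain ⟨C, hCB, hCc, hfC⟩ := exists_countable_support_fun A B f hfm
  have hJB : J C f hCc hfC ⊆ B := by
    refine Subset.trans ?_ (hB C hCB hCc)
    have h1 : Φ C = ⋃ ψ : {f : Ω → ℝ | Measurable[sig A C] f}, J C ψ hCc ψ.2 := dif_pos hCc
    rw [h1]
    exact subset_iUnion (fun ψ : {f : Ω → ℝ | Measurable[sig A C] f} => J C ψ hCc ψ.2) ⟨f, hfC⟩
  refine hJ C f hCc hfC i (fun hij => hi (hJB hij)) ?_
  have h1 : μ[f | sig A (J C f hCc hfC)] =ᵐ[μ]
      μ[(A i).indicator (fun _ => (1 : ℝ)) | sig A (J C f hCc hfC)] :=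
    condExp_condExp_of_le (sig_mono A hJB) (sig_le hA B)
  have h2 : μ[f | sig A (J C f hCc hfC)] = f := by
    apply condExp_of_stronglyMeasurable (sig_le hA _)
    · exact (hfC.mono (sig_mono A (hCJ C f hCc hfC)) le_rfl).stronglyMeasurable
    · exact integrable_condExp
  rw [h2] at h1
  exact h1.symm

end Pool.Agent.Helper78.NW

namespace Pool.Agent.Helper50.NW

open Set Filter Topology Cardinal MeasureTheory Pool.Agent.Helper78.NW

universe u

/-- P1: cardinals closed under countable powers are measure precalibers. -/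
theorem isMeasurePrecaliber_of_pow_lt {θ : Cardinal.{u}} (hθ : θ.IsRegular)
    (h : ∀ ν < θ, ν ^ ℵ₀ < θ) : IsMeasurePrecaliber θ := by
  classical
  intro Ω mΩ μ hμ ι A hι hA hAμ
  obtain ⟨C, ψ, hCc, hψm, hgood⟩ := exists_good μ hθ h hι A hA
  have hθ2 := two_pow_lt hθ h
  have h0θ : (ℵ₀ : Cardinal.{u}) < θ := aleph0_lt_continuum.trans hθ2
  have hCθ : #C < θ := (le_aleph0_iff_set_countable.2 hCc).trans_lt h0θ
  have hne : Nonempty ι := by
    rw [← mk_ne_zero_iff, hι]; exact hθ.ne_zero
  choose! sel hsel hsel2 using hgood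
  let W := θ.ord.ToType
  have hWc : #W = θ := mk_ord_toType _
  have hIio : ∀ w : W, #(Iio w) < θ := by
    intro w
    simpa [W] using mk_Iio_lt w
  let i : W → ι := (IsWellFounded.wf : WellFounded ((· < ·) : W → W → Prop)).fix
    (fun w g => sel (C ∪ range (fun v : Iio w => g v v.2)))
  have hi : ∀ w, i w = sel (C ∪ range (fun v : Iio w => i v)) := fun w =>
    WellFounded.fix_eq _ _ w
  let B : W → Set ι := fun w => C ∪ range (fun v : Iio w => i v)
  have hBθ : ∀ w, #(B w) < θ := fun w =>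
    (mk_union_le _ _).trans_lt (add_lt_of_lt hθ.aleph0_le hCθ (mk_range_le.trans_lt (hIio w)))
  have hiB : ∀ w, i w ∉ B w := by
    intro w
    rw [hi w]
    exact hsel (B w) subset_union_left (hBθ w)
  have hicond : ∀ w, μ[(A (i w)).indicator (fun _ => (1 : ℝ)) | sig A (B w)] =ᵐ[μ] ψ := by
    intro w
    rw [hi w]
    exact hsel2 (B w) subset_union_left (hBθ w)
  have hlt : ∀ v w, v < w → i v ∈ B w := fun v w hvw => Or.inr ⟨⟨v, hvw⟩, rfl⟩
  have hinj : Function.Injective i := by
    intro v w hvw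
    by_contra hne
    rcases lt_or_gt_of_ne hne with h1 | h1
    · exact hiB w (hvw ▸ hlt v w h1)
    · exact hiB v (hvw ▸ hlt w v h1)
  have hWne : Nonempty W := by
    rw [← mk_ne_zero_iff, hWc]; exact hθ.ne_zero
  obtain ⟨w0⟩ := hWne
  -- integrability of indicators
  have hind : ∀ j, Integrable ((A j).indicator (fun _ => (1 : ℝ))) μ := fun j =>
    (integrable_const (1 : ℝ)).indicator (hA j)
  have hψ0 : 0 ≤ᵐ[μ] ψ := by
    have h1 : 0 ≤ᵐ[μ] μ[(A (i w0)).indicator (fun _ => (1 : ℝ)) | sig A (B w0)] :=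
      condExp_nonneg (ae_of_all _ (fun x => indicator_nonneg (fun _ _ => zero_le_one) x))
    exact h1.trans (hicond w0).le
  have hψ1 : ψ ≤ᵐ[μ] fun _ => 1 := by
    have h1 : μ[(A (i w0)).indicator (fun _ => (1 : ℝ)) | sig A (B w0)] ≤ᵐ[μ]
        μ[(fun _ => (1 : ℝ)) | sig A (B w0)] := by
      apply condExp_mono (hind _) (integrable_const _)
      refine ae_of_all _ (fun x => ?_)
      by_cases hx : x ∈ A (i w0) <;> simp [hx]
    rw [condExp_const (sig_le hA _)] at h1
    exact (hicond w0).symm.le.trans h1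
  have hψint : Integrable ψ μ := integrable_condExp.congr (hicond w0)
  -- the product formula
  have hprod : ∀ (F : Finset W) (m : ℕ),
      ∫ x, ψ x ^ m * ∏ w ∈ F, (A (i w)).indicator (fun _ => (1 : ℝ)) x ∂μ
        = ∫ x, ψ x ^ (m + F.card) ∂μ := by
    intro F
    induction F using Finset.induction_on_max with
    | empty => intro m; simp
    | insert a s hs ih =>
      intro m
      have ha : a ∉ s := fun h => lt_irrefl _ (hs a h)
      set g : Ω → ℝ := fun x => ψ x ^ m * ∏ w ∈ s, (A (i w)).indicator (fun _ => (1 : ℝ)) x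
        with hg
      have hgm : StronglyMeasurable[sig A (B a)] g := by
        have hψm' : Measurable[sig A (B a)] ψ :=
          hψm.mono (sig_mono A subset_union_left) le_rfl
        exact @stronglyMeasurable_pow_mul_prod Ω W (sig A (B a)) ψ hψm' m s (fun w => A (i w))
          (fun w hw => measurableSet_sig A (hlt w a (hs w hw)))
      have hbound : ∀ᵐ x ∂μ, ‖g x‖ ≤ 1 := by
        filter_upwards [hψ0, hψ1] with x h0 h1
        have h0' : 0 ≤ ψ x := h0
        have h2 : 0 ≤ ∏ w ∈ s, (A (i w)).indicator (fun _ => (1 : ℝ)) x :=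
          Finset.prod_nonneg (fun w _ => indicator_nonneg (fun _ _ => zero_le_one) x)
        have h3 : ∏ w ∈ s, (A (i w)).indicator (fun _ => (1 : ℝ)) x ≤ 1 := by
          apply Finset.prod_le_one
          · intro w _; exact indicator_nonneg (fun _ _ => zero_le_one) x
          · intro w _
            by_cases hx : x ∈ A (i w) <;> simp [hx]
        rw [hg]
        simp only
        rw [Real.norm_of_nonneg (mul_nonneg (pow_nonneg h0' _) h2)]
        exact mul_le_one₀ (pow_le_one₀ h0' h1) h2 h3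
      have h1 : μ[g * (A (i a)).indicator (fun _ => (1 : ℝ)) | sig A (B a)] =ᵐ[μ]
          g * μ[(A (i a)).indicator (fun _ => (1 : ℝ)) | sig A (B a)] :=
        condExp_stronglyMeasurable_mul_of_bound (sig_le hA _) hgm (hind _) 1 hbound
      have h2 : g * μ[(A (i a)).indicator (fun _ => (1 : ℝ)) | sig A (B a)] =ᵐ[μ] g * ψ := by
        filter_upwards [hicond a] with x hx
        simp only [Pi.mul_apply]
        rw [hx]
      have h3 : ∫ x, (g * (A (i a)).indicator (fun _ => (1 : ℝ))) x ∂μ
          = ∫ x, (g * ψ) x ∂μ := by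
        rw [← integral_condExp (sig_le hA (B a))]
        exact integral_congr_ae (h1.trans h2)
      have h4 := ih (m + 1)
      rw [Finset.card_insert_of_notMem ha]
      calc ∫ x, ψ x ^ m * ∏ w ∈ insert a s, (A (i w)).indicator (fun _ => (1 : ℝ)) x ∂μ
          = ∫ x, (g * (A (i a)).indicator (fun _ => (1 : ℝ))) x ∂μ := by
            congr 1; funext x
            rw [Finset.prod_insert ha, hg]
            simp only [Pi.mul_apply]
            ring
        _ = ∫ x, (g * ψ) x ∂μ := h3
        _ = ∫ x, ψ x ^ (m + 1) * ∏ w ∈ s, (A (i w)).indicator (fun _ => (1 : ℝ)) x ∂μ := by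
            congr 1; funext x
            rw [hg]
            simp only [Pi.mul_apply]
            ring
        _ = ∫ x, ψ x ^ (m + (s.card + 1)) ∂μ := by rw [h4]; congr 1; funext x; congr 1; ring
  -- positivity of the moments
  have hpos : ∀ n : ℕ, ∫ x, ψ x ^ n ∂μ ≠ 0 := by
    intro n hn
    have hnn : 0 ≤ᵐ[μ] fun x => ψ x ^ n := by
      filter_upwards [hψ0] with x hx
      exact pow_nonneg hx n
    have hint : Integrable (fun x => ψ x ^ n) μ := by
      refine Integrable.of_bound (hψint.aestronglyMeasurable.pow n) 1 ?_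
      filter_upwards [hψ0, hψ1] with x h0 h1
      rw [Real.norm_of_nonneg (pow_nonneg h0 _)]
      exact pow_le_one₀ h0 h1
    have h1 := (integral_eq_zero_iff_of_nonneg_ae hnn hint).1 hn
    have h2 : ψ =ᵐ[μ] 0 := by
      filter_upwards [h1] with x hx
      exact eq_zero_of_pow_eq_zero hx
    have h3 : ∫ x, ψ x ∂μ = 0 := by
      rw [integral_congr_ae h2]; simp
    have h4 : ∫ x, ψ x ∂μ = μ.real (A (i w0)) := by
      rw [← integral_congr_ae (hicond w0), integral_condExp (sig_le hA (B w0)),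
        integral_indicator (hA _)]
      simp
    rw [h4, measureReal_eq_zero_iff] at h3
    exact hAμ _ h3
  refine ⟨range i, ?_, ?_⟩
  · rw [mk_range_eq i hinj, hWc]
  · intro F hF h0
    obtain ⟨F', rfl⟩ : ∃ F' : Finset W, F = F'.image i := by
      refine ⟨F.preimage i hinj.injOn, ?_⟩
      rw [Finset.image_preimage, Finset.filter_true_of_mem]
      exact fun j hj => hF hj
    have h1 := hprod F' 0
    apply hpos (0 + F'.card)
    rw [← h1]
    apply integral_eq_zero_of_ae
    have h2 : ∀ᵐ x ∂μ, x ∉ ⋂ j ∈ F'.image i, A j := measure_eq_zero_iff_ae_notMem.1 h0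
    filter_upwards [h2] with x hx
    simp only [mem_iInter, not_forall] at hx
    obtain ⟨j, hj, hxj⟩ := hx
    obtain ⟨w, hw, rfl⟩ := Finset.mem_image.1 hj
    simp only [Pi.zero_apply]
    rw [Finset.prod_eq_zero hw (by simp [hxj]), mul_zero]

end Pool.Agent.Helper50.NW
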